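import Pool.Agent.X282.QV.GenE

/-!
MP_83d6ff_an, Q1, in every even dimension `n = 2m ≥ 6` and for every real `α ≥ 0`: every `Λ > 0` is
the total curvature of a continuous radially symmetric weak solution of
`(-Δ)^(n/2) u = e^(nu) |x|^(nα)`; if moreover `mα` is an integer `q`, then of a smooth radially
symmetric classical solution.
-/

set_option autoImplicit false

open MeasureTheory

namespace Pool.Agent.Results.MP_83d6ff_an.EvenDimensions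

/-- minus the Laplacian of a function on `ℝ^(2m)` -/
noncomputable def minusLaplacian (m : ℕ) (u : EuclideanSpace ℝ (Fin (2 * m)) → ℝ) :
    EuclideanSpace ℝ (Fin (2 * m)) → ℝ := fun x => -(Laplacian.laplacian u x)

theorem result : ∀ m : ℕ, 3 ≤ m → ∀ Λ : ℝ, 0 < Λ →
    (∀ α : ℝ, 0 ≤ α → ∃ u : EuclideanSpace ℝ (Fin (2 * m)) → ℝ, Continuous u ∧
      (∀ x y, ‖x‖ = ‖y‖ → u x = u y) ∧
      (∀ φ : EuclideanSpace ℝ (Fin (2 * m)) → ℝ, ContDiff ℝ (⊤ : ℕ∞) φ → HasCompactSupport φ →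
        ∫ x, u x * (minusLaplacian m)^[m] φ x =
          ∫ x, Real.exp (2 * m * u x) * ‖x‖ ^ (2 * m * α) * φ x) ∧
      Integrable (fun x => Real.exp (2 * m * u x) * ‖x‖ ^ (2 * m * α)) ∧
      ∫ x, Real.exp (2 * m * u x) * ‖x‖ ^ (2 * m * α) = Λ) ∧
    (∀ q : ℕ, ∃ u : EuclideanSpace ℝ (Fin (2 * m)) → ℝ, ContDiff ℝ (⊤ : ℕ∞) u ∧
      (∀ x y, ‖x‖ = ‖y‖ → u x = u y) ∧
      (∀ x, (minusLaplacian m)^[m] u x = Real.exp (2 * m * u x) * ‖x‖ ^ (2 * q)) ∧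
      Integrable (fun x => Real.exp (2 * m * u x) * ‖x‖ ^ (2 * q)) ∧
      ∫ x, Real.exp (2 * m * u x) * ‖x‖ ^ (2 * q) = Λ) := by
  intro m hm Λ hΛ
  refine ⟨fun α hα => ?_, fun q => ?_⟩
  · obtain ⟨u, h1, h2, h3, h4, h5⟩ := Pool.Agent.X282.QV.weightedReal m hm α hα Λ hΛ
    exact ⟨u, h1, h2, fun φ hφ hc => h3 φ (contDiff_infty.1 hφ) hc, h4, h5⟩
  · obtain ⟨u, h1, h2, h3, h4, h5⟩ := Pool.Agent.X282.QV.weighted m hm q Λ hΛ
    exact ⟨u, contDiff_infty.2 h1, h2, h3, h4, h5⟩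

end Pool.Agent.Results.MP_83d6ff_an.EvenDimensions
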